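import Mathlib

/-!
# MP_70625d_co : common ball for max-sum matchings

In every dimension `d ≥ 3` there are six points with a max-sum matching such that the three closed
balls induced by its pairs have no common point.
-/

set_option autoImplicit false

namespace Pool.Agent.Results.MP_70625d_co.EmptyIntersection

open Finset

/-- `m` is a perfect matching of the finite set `X`: it maps each point of `X` to its partner, a
different point of `X`, and the partner of the partner is the point itself. -/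
def IsPerfectMatching {d : ℕ} (X : Finset (EuclideanSpace ℝ (Fin d)))
    (m : EuclideanSpace ℝ (Fin d) → EuclideanSpace ℝ (Fin d)) : Prop :=
  ∀ x ∈ X, m x ∈ X ∧ m x ≠ x ∧ m (m x) = x

/-- The sum of the distances over the pairs of the matching (every pair is counted at both of its
points, hence the factor `1/2`). -/
noncomputable def matchingSum {d : ℕ} (X : Finset (EuclideanSpace ℝ (Fin d)))
    (m : EuclideanSpace ℝ (Fin d) → EuclideanSpace ℝ (Fin d)) : ℝ :=
  (∑ x ∈ X, dist x (m x)) / 2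

/-- `m` is a perfect matching of `X` of maximum sum of distances. -/
def IsMaxSumMatching {d : ℕ} (X : Finset (EuclideanSpace ℝ (Fin d)))
    (m : EuclideanSpace ℝ (Fin d) → EuclideanSpace ℝ (Fin d)) : Prop :=
  IsPerfectMatching X m ∧
    ∀ m' : EuclideanSpace ℝ (Fin d) → EuclideanSpace ℝ (Fin d),
      IsPerfectMatching X m' → matchingSum X m' ≤ matchingSum X m

/-- the coordinates of the six points -/
def pc : Fin 6 → Fin 3 → ℤ :=
  ![![-2, 3, 8], ![14, -52, 42], ![2, -9, -7], ![56, 24, -6], ![0, -3, 0], ![-184, 49, -90]]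

/-- the partner -/
def sg : Fin 6 → Fin 6 := ![1, 0, 3, 2, 5, 4]

/-- squared distances -/
def N (i j : Fin 6) : ℤ := ∑ a, (pc i a - pc j a) ^ 2

/-- lower bounds for the potentials, in units of `1/1000` -/
def yl : Fin 6 → ℤ := ![9849, 56761, 9796, 53496, 9300, 202029]

/-- the six points in `ℝ^(3+n)` -/
noncomputable def pt (n : ℕ) (i : Fin 6) : EuclideanSpace ℝ (Fin (3 + n)) :=
  WithLp.toLp 2 (Fin.append (fun a => (pc i a : ℝ)) (fun _ => 0))

lemma dist_pt (n : ℕ) (i j : Fin 6) : dist (pt n i) (pt n j) = √(N i j : ℝ) := by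
  rw [EuclideanSpace.dist_eq, Fin.sum_univ_add]
  congr 1
  simp only [pt, Fin.append_left, Fin.append_right, dist_self]
  simp only [N, Real.dist_eq, sq_abs]
  push_cast
  simp

lemma pt_inj (n : ℕ) : Function.Injective (pt n) := by
  intro i j h
  have h1 : N i j = 0 := by
    have h2 : dist (pt n i) (pt n j) = 0 := by rw [h, dist_self]
    rw [dist_pt] at h2
    have h3 : (0 : ℝ) ≤ (N i j : ℝ) := by
      unfold N; push_cast; positivity
    have h4 := (Real.sqrt_eq_zero h3).1 h2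
    exact_mod_cast h4
  have key : ∀ i j : Fin 6, N i j = 0 → i = j := by decide
  exact key i j h1

/-- the potentials -/
noncomputable def yv (i : Fin 6) : ℝ :=
  if (i : ℕ) % 2 = 0 then (yl i : ℝ) / 1000 else √(N i (sg i) : ℝ) - (yl (sg i) : ℝ) / 1000

lemma yv_pair (i : Fin 6) : yv i + yv (sg i) = √(N i (sg i) : ℝ) := by
  have hsym : ∀ i : Fin 6, N (sg i) i = N i (sg i) := by decide
  have hss : ∀ i : Fin 6, sg (sg i) = i := by decide
  have hpar : ∀ i : Fin 6, ((i : ℕ) % 2 = 0) ↔ ¬ ((sg i : ℕ) % 2 = 0) := by decide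
  unfold yv
  by_cases h : (i : ℕ) % 2 = 0
  · rw [if_pos h, if_neg ((hpar i).1 h), hss, hsym]; ring
  · have h2 : (sg i : ℕ) % 2 = 0 := by
      by_contra h3; exact h ((hpar i).2 h3)
    rw [if_neg h, if_pos h2]; ring

lemma yl_le (i : Fin 6) : (yl i : ℝ) / 1000 ≤ yv i := by
  unfold yv
  by_cases h : (i : ℕ) % 2 = 0
  · rw [if_pos h]
  · rw [if_neg h, le_sub_iff_add_le]
    apply Real.le_sqrt_of_sq_le
    have key : ∀ i : Fin 6, (yl i + yl (sg i)) ^ 2 ≤ 1000000 * N i (sg i) := by decide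
    have := key i
    have h2 : (((yl i + yl (sg i)) ^ 2 : ℤ) : ℝ) ≤ ((1000000 * N i (sg i) : ℤ) : ℝ) := by
      exact_mod_cast this
    push_cast at h2
    nlinarith

lemma sqrt_le (i j : Fin 6) (hij : i ≠ j) : √(N i j : ℝ) ≤ yv i + yv j := by
  by_cases h : j = sg i
  · rw [h, yv_pair]
  · have key : ∀ i j : Fin 6, i ≠ j → j ≠ sg i →
        0 ≤ yl i + yl j ∧ 1000000 * N i j ≤ (yl i + yl j) ^ 2 := by decide
    obtain ⟨h1, h2⟩ := key i j hij h
    have h1' : (0 : ℝ) ≤ (yl i : ℝ) + (yl j : ℝ) := by exact_mod_cast h1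
    have h2' : (1000000 : ℝ) * (N i j : ℝ) ≤ ((yl i : ℝ) + (yl j : ℝ)) ^ 2 := by exact_mod_cast h2
    have h3 : √(N i j : ℝ) ≤ ((yl i : ℝ) + (yl j : ℝ)) / 1000 := by
      apply Real.sqrt_le_iff.2
      constructor
      · positivity
      · nlinarith
    have h4 := yl_le i
    have h5 := yl_le j
    linarith

/-- In every dimension `d ≥ 3` there are a six-point set `X` and a max-sum matching of `X` such
that the closed balls with the pairs of the matching as diameters have no common point. -/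
theorem result (d : ℕ) (hd : 3 ≤ d) :
    ∃ (X : Finset (EuclideanSpace ℝ (Fin d)))
      (m : EuclideanSpace ℝ (Fin d) → EuclideanSpace ℝ (Fin d)),
      X.card = 6 ∧ IsMaxSumMatching X m ∧
        ⋂ x ∈ X, Metric.closedBall (midpoint ℝ x (m x)) (dist x (m x) / 2) = ∅ := by
  classical
  obtain ⟨n, rfl⟩ : ∃ n, d = 3 + n := ⟨d - 3, by omega⟩
  let P : Fin 6 ↪ EuclideanSpace ℝ (Fin (3 + n)) := ⟨pt n, pt_inj n⟩
  let X : Finset (EuclideanSpace ℝ (Fin (3 + n))) := Finset.univ.map P
  let m : EuclideanSpace ℝ (Fin (3 + n)) → EuclideanSpace ℝ (Fin (3 + n)) :=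
    Function.extend (pt n) (pt n ∘ sg) id
  have hm : ∀ i, m (pt n i) = pt n (sg i) := fun i => (pt_inj n).extend_apply _ _ _
  have hX : ∀ x ∈ X, ∃ i, pt n i = x := by
    intro x hx
    obtain ⟨i, _, rfl⟩ := Finset.mem_map.1 hx
    exact ⟨i, rfl⟩
  have hX' : ∀ i, pt n i ∈ X := fun i => Finset.mem_map.2 ⟨i, Finset.mem_univ _, rfl⟩
  have hss : ∀ i : Fin 6, sg (sg i) = i := by decide
  have hne : ∀ i : Fin 6, sg i ≠ i := by decide
  refine ⟨X, m, by simp [X], ⟨?_, ?_⟩, ?_⟩
  · intro x hx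
    obtain ⟨i, rfl⟩ := hX x hx
    rw [hm, hm, hss]
    exact ⟨hX' _, fun h => hne i (pt_inj n h), rfl⟩
  · intro m' hm'
    let Y : EuclideanSpace ℝ (Fin (3 + n)) → ℝ := Function.extend (pt n) yv 0
    have hY : ∀ i, Y (pt n i) = yv i := fun i => (pt_inj n).extend_apply _ _ _
    have h1 : ∑ x ∈ X, dist x (m' x) ≤ ∑ x ∈ X, (Y x + Y (m' x)) := by
      refine Finset.sum_le_sum fun x hx => ?_
      obtain ⟨h2, h3, _⟩ := hm' x hx
      obtain ⟨i, hi⟩ := hX x hx
      obtain ⟨j, hj⟩ := hX _ h2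
      have hij : i ≠ j := by
        rintro rfl
        exact h3 (by rw [← hj, hi])
      rw [← hj, ← hi, dist_pt, hY, hY]
      exact sqrt_le i j hij
    have h2 : ∑ x ∈ X, Y (m' x) = ∑ x ∈ X, Y x := by
      refine Finset.sum_nbij' m' m' (fun x hx => (hm' x hx).1) (fun x hx => (hm' x hx).1)
        (fun x hx => (hm' x hx).2.2) (fun x hx => (hm' x hx).2.2) (fun x hx => rfl)
    have h3 : ∑ x ∈ X, dist x (m x) = ∑ x ∈ X, (Y x + Y (m x)) := by
      refine Finset.sum_congr rfl fun x hx => ?_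
      obtain ⟨i, rfl⟩ := hX x hx
      rw [hm, dist_pt, hY, hY, yv_pair]
    have h4 : ∑ x ∈ X, Y (m x) = ∑ x ∈ X, Y x := by
      have hmm : ∀ x ∈ X, m x ∈ X ∧ m (m x) = x := by
        intro x hx
        obtain ⟨i, rfl⟩ := hX x hx
        rw [hm, hm, hss]
        exact ⟨hX' _, rfl⟩
      refine Finset.sum_nbij' m m (fun x hx => (hmm x hx).1) (fun x hx => (hmm x hx).1)
        (fun x hx => (hmm x hx).2) (fun x hx => (hmm x hx).2) (fun x hx => rfl)
    unfold matchingSum
    rw [h3]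
    rw [Finset.sum_add_distrib] at h1 ⊢
    linarith
  · rw [Set.eq_empty_iff_forall_notMem]
    intro z hz
    have hz' : ∀ i, z ∈ Metric.closedBall (midpoint ℝ (pt n i) (pt n (sg i)))
        (dist (pt n i) (pt n (sg i)) / 2) := by
      intro i
      have := Set.mem_iInter₂.1 hz (pt n i) (hX' i)
      rwa [hm] at this
    -- the condition in coordinates
    have hq : ∀ i : Fin 6, ∑ a : Fin 3, (z (Fin.castAdd n a) - pc i a) *
        (z (Fin.castAdd n a) - pc (sg i) a) ≤ 0 := by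
      intro i
      have h := hz' i
      rw [Metric.mem_closedBall, dist_eq_norm, dist_eq_norm] at h
      set u := pt n i with hu
      set v := pt n (sg i) with hv
      have e1 : z - midpoint ℝ u v = (1 / 2 : ℝ) • ((z - u) + (z - v)) := by
        rw [midpoint_eq_smul_add]
        simp only [smul_add, smul_sub, invOf_eq_inv]
        rw [show (2 : ℝ)⁻¹ = 1 / 2 by norm_num]
        have : z = (1 / 2 : ℝ) • z + (1 / 2 : ℝ) • z := by
          rw [← add_smul]; norm_num
        nth_rewrite 1 [this]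
        abel
      have e2 : u - v = (z - v) - (z - u) := by abel
      rw [e1, e2, norm_smul] at h
      have h5 : ‖(z - u) + (z - v)‖ ≤ ‖(z - v) - (z - u)‖ := by
        rw [Real.norm_of_nonneg (by norm_num : (0 : ℝ) ≤ 1 / 2)] at h
        linarith
      have h6 : ‖(z - u) + (z - v)‖ ^ 2 ≤ ‖(z - v) - (z - u)‖ ^ 2 :=
        pow_le_pow_left₀ (norm_nonneg _) h5 2
      rw [norm_add_sq_real (z - u) (z - v), norm_sub_sq_real (z - v) (z - u)] at h6
      have h7 : inner ℝ (z - u) (z - v) ≤ (0 : ℝ) := by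
        have h8 : inner ℝ (z - v) (z - u) = (inner ℝ (z - u) (z - v) : ℝ) :=
          real_inner_comm _ _
        rw [h8] at h6
        linarith
      have h9 : (inner ℝ (z - u) (z - v) : ℝ) =
          (∑ a : Fin 3, (z (Fin.castAdd n a) - pc i a) * (z (Fin.castAdd n a) - pc (sg i) a))
          + ∑ b : Fin n, (z (Fin.natAdd 3 b)) ^ 2 := by
        rw [PiLp.inner_apply, Fin.sum_univ_add]
        congr 1
        · refine Finset.sum_congr rfl fun a _ => ?_
          simp only [PiLp.sub_apply, hu, hv, pt, Fin.append_left]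
          simp only [RCLike.inner_apply, conj_trivial]
          ring
        · refine Finset.sum_congr rfl fun a _ => ?_
          simp only [PiLp.sub_apply, hu, hv, pt, Fin.append_right]
          simp only [RCLike.inner_apply, conj_trivial]
          ring
      rw [h9] at h7
      have h10 : 0 ≤ ∑ b : Fin n, (z (Fin.natAdd 3 b)) ^ 2 :=
        Finset.sum_nonneg fun b _ => sq_nonneg _
      linarith
    have q0 := hq 0
    have q1 := hq 2
    have q2 := hq 4
    rw [Fin.sum_univ_three] at q0 q1 q2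
    set a := z (Fin.castAdd n 0)
    set b := z (Fin.castAdd n 1)
    set c := z (Fin.castAdd n 2)
    have q0' : (a - ((-2 : ℤ) : ℝ)) * (a - ((14 : ℤ) : ℝ)) + (b - ((3 : ℤ) : ℝ)) *
        (b - ((-52 : ℤ) : ℝ)) + (c - ((8 : ℤ) : ℝ)) * (c - ((42 : ℤ) : ℝ)) ≤ 0 := q0
    have q1' : (a - ((2 : ℤ) : ℝ)) * (a - ((56 : ℤ) : ℝ)) + (b - ((-9 : ℤ) : ℝ)) *
        (b - ((24 : ℤ) : ℝ)) + (c - ((-7 : ℤ) : ℝ)) * (c - ((-6 : ℤ) : ℝ)) ≤ 0 := q1
    have q2' : (a - ((0 : ℤ) : ℝ)) * (a - ((-184 : ℤ) : ℝ)) + (b - ((-3 : ℤ) : ℝ)) *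
        (b - ((49 : ℤ) : ℝ)) + (c - ((0 : ℤ) : ℝ)) * (c - ((-90 : ℤ) : ℝ)) ≤ 0 := q2
    push_cast at q0' q1' q2'
    nlinarith [sq_nonneg (4 * a + 3), sq_nonneg (4 * b + 13), sq_nonneg (24 * c - 5)]

end Pool.Agent.Results.MP_70625d_co.EmptyIntersection
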